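import Pool.Agent.SqNormal.Main

/-!
# Locally compact metalindelöf spaces with normal square
-/

set_option autoImplicit false

open Set Topology Cardinal

universe u

namespace Pool.Agent.SqNormal.Lind

/-! ### Closed sets of indices, for an operation on finite sets -/

section Hull

variable {ι : Type u} (H : Finset ι → Set ι)

/-- `M` is closed under the operation `H`. -/
def Cl (M : Set ι) : Prop := ∀ a : Finset ι, a.Nonempty → (a : Set ι) ⊆ M → H a ⊆ M

/-- One step of the closure. -/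
def step (A : Set ι) : Set ι := A ∪ {k | ∃ a : Finset ι, a.Nonempty ∧ (a : Set ι) ⊆ A ∧ k ∈ H a}

/-- The closure of `A` under `H`. -/
def hull (A : Set ι) : Set ι := ⋃ n : ℕ, (step H)^[n] A

theorem subset_step (A : Set ι) : A ⊆ step H A := subset_union_left

theorem iter_mono (A : Set ι) : Monotone (fun n => (step H)^[n] A) := by
  apply monotone_nat_of_le_succ
  intro n
  simp only [Function.iterate_succ_apply']
  exact subset_step H _

theorem subset_hull (A : Set ι) : A ⊆ hull H A := subset_iUnion (fun n => (step H)^[n] A) 0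

theorem cl_hull (A : Set ι) : Cl H (hull H A) := by
  intro a ha hs k hk
  have h1 : ∀ i, ∃ n, i ∈ a → i ∈ (step H)^[n] A := by
    intro i
    by_cases hi : i ∈ a
    · obtain ⟨n, hn⟩ := mem_iUnion.mp (hs (Finset.mem_coe.mpr hi))
      exact ⟨n, fun _ => hn⟩
    · exact ⟨0, fun h => absurd h hi⟩
  choose n hn using h1
  refine mem_iUnion.mpr ⟨a.sup n + 1, ?_⟩
  rw [Function.iterate_succ_apply']
  refine Or.inr ⟨a, ha, fun i hi => ?_, hk⟩
  exact iter_mono H A (Finset.le_sup (Finset.mem_coe.mp hi)) (hn i (Finset.mem_coe.mp hi))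

theorem hull_min {A M : Set ι} (h : A ⊆ M) (hM : Cl H M) : hull H A ⊆ M := by
  apply iUnion_subset
  intro n
  induction n with
  | zero => exact h
  | succ n ih =>
    rw [Function.iterate_succ_apply']
    apply union_subset ih
    rintro k ⟨a, ha, hs, hk⟩
    exact hM a ha (hs.trans ih) hk

theorem mk_finset_le {A : Type u} {μ : Cardinal.{u}} (hμ : ℵ₀ ≤ μ) (hA : #A ≤ μ) :
    #(Finset A) ≤ μ := by
  rcases finite_or_infinite A with h | h
  · exact (lt_aleph0_of_finite (Finset A)).le.trans hμ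
  · rw [mk_finset_of_infinite]
    exact hA

theorem mk_step_le {κ : Cardinal.{u}} (hH : ∀ a, #(H a) ≤ κ) (A : Set ι) {μ : Cardinal.{u}}
    (hκμ : κ ≤ μ) (hμ : ℵ₀ ≤ μ) (hA : #A ≤ μ) : #(step H A) ≤ μ := by
  have h1 : #(⋃ a : Finset A, H (a.map (Function.Embedding.subtype _)) : Set ι) ≤ μ := by
    refine (mk_iUnion_le _).trans ?_
    have h2 : #(Finset A) ≤ μ := mk_finset_le hμ hA
    have h3 : (⨆ a : Finset A, #(H (a.map (Function.Embedding.subtype _)))) ≤ μ :=
      ciSup_le' fun a => (hH _).trans hκμ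
    exact (mul_le_mul' h2 h3).trans (mul_eq_self hμ).le
  have h4 : {k | ∃ a : Finset ι, a.Nonempty ∧ (a : Set ι) ⊆ A ∧ k ∈ H a} ⊆
      ⋃ a : Finset A, H (a.map (Function.Embedding.subtype _)) := by
    classical
    rintro k ⟨a, -, hs, hk⟩
    refine mem_iUnion.mpr ⟨a.subtype (· ∈ A), ?_⟩
    rw [Finset.subtype_map_of_mem fun i hi => hs (Finset.mem_coe.mpr hi)]
    exact hk
  exact (mk_union_le _ _).trans ((add_le_add hA ((mk_le_mk_of_subset h4).trans h1)).trans
    (add_eq_self hμ).le)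

theorem mk_hull_le {κ : Cardinal.{u}} (hH : ∀ a, #(H a) ≤ κ) (A : Set ι) {μ : Cardinal.{u}}
    (hκμ : κ ≤ μ) (hμ : ℵ₀ ≤ μ) (hA : #A ≤ μ) : #(hull H A) ≤ μ := by
  have h1 : ∀ n : ℕ, #((step H)^[n] A : Set ι) ≤ μ := by
    intro n
    induction n with
    | zero => exact hA
    | succ n ih =>
      rw [Function.iterate_succ_apply']
      exact mk_step_le H hH _ hκμ hμ ih
  have h2 := mk_iUnion_le_lift (fun n : ℕ => (step H)^[n] A)
  rw [lift_uzero] at h2
  refine h2.trans ?_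
  have h3 : lift.{u} #ℕ ≤ μ := by
    rw [mk_nat, lift_aleph0]
    exact hμ
  have h4 : (⨆ n : ℕ, lift.{0} #((step H)^[n] A : Set ι)) ≤ μ := by
    apply ciSup_le'
    intro n
    rw [lift_uzero]
    exact h1 n
  exact (mul_le_mul' h3 h4).trans (mul_eq_self hμ).le

/-- A directed union of closed sets is closed. -/
theorem cl_iUnion {κ : Type*} (B : κ → Set ι) (hB : ∀ k, Cl H (B k))
    (hd : ∀ k l, ∃ r, B k ⊆ B r ∧ B l ⊆ B r) : Cl H (⋃ k, B k) := by
  classical
  intro a ha hs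
  obtain ⟨i0, hi0⟩ := ha
  obtain ⟨k0, -⟩ := mem_iUnion.mp (hs (Finset.mem_coe.mpr hi0))
  have : Nonempty κ := ⟨k0⟩
  have h1 : ∀ i, ∃ k, i ∈ a → i ∈ B k := by
    intro i
    by_cases hi : i ∈ a
    · obtain ⟨k, hk⟩ := mem_iUnion.mp (hs (Finset.mem_coe.mpr hi))
      exact ⟨k, fun _ => hk⟩
    · exact ⟨k0, fun h => absurd h hi⟩
  choose f hf using h1
  have hD : Directed (· ⊆ ·) B := fun k l => by
    obtain ⟨r, h1, h2⟩ := hd k l
    exact ⟨r, h1, h2⟩
  obtain ⟨r, hr⟩ := hD.finset_le (a.image f)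
  have h2 : (a : Set ι) ⊆ B r := fun i hi =>
    hr (f i) (Finset.mem_image_of_mem f (Finset.mem_coe.mp hi)) (hf i (Finset.mem_coe.mp hi))
  exact (hB r a ⟨i0, hi0⟩ h2).trans (subset_iUnion B r)

end Hull

/-! ### Decompositions -/

section Dec

variable {X : Type u} [TopologicalSpace X]

/-- `Y` is the union of at most `κ` compact sets. -/
def KCompact (κ : Cardinal.{u}) (Y : Set X) : Prop :=
  ∃ S : Set (Set X), #S ≤ κ ∧ (∀ s ∈ S, IsCompact s) ∧ ⋃₀ S = Y

theorem KCompact.of_isClosed_subset {κ : Cardinal.{u}} {Y Z : Set X} (h : KCompact κ Y)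
    (hZ : IsClosed Z) (hZY : Z ⊆ Y) : KCompact κ Z := by
  obtain ⟨S, h1, h2, h3⟩ := h
  refine ⟨(fun s => s ∩ Z) '' S, mk_image_le.trans h1, ?_, ?_⟩
  · rintro _ ⟨s, hs, rfl⟩
    exact (h2 s hs).inter_right hZ
  · rw [sUnion_image, ← iUnion₂_inter, ← sUnion_eq_biUnion, h3]
    exact inter_eq_right.mpr hZY

theorem KCompact.isSigmaCompact {Y : Set X} (h : KCompact ℵ₀ Y) : IsSigmaCompact Y := by
  obtain ⟨S, h1, h2, rfl⟩ := h
  exact isSigmaCompact_sUnion_of_isCompact ((le_aleph0_iff_set_countable).mp h1) h2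

/-- `Y` is the disjoint union of clopen subsets of `X`, each of which is the union of at most `κ`
compact sets. -/
def DecK (κ : Cardinal.{u}) (Y : Set X) : Prop :=
  ∃ C : Set (Set X), (∀ c ∈ C, IsClopen c ∧ KCompact κ c) ∧ C.PairwiseDisjoint id ∧ ⋃₀ C = Y

theorem dec_of_cl {ι : Type u} (H : Finset ι → Set ι) {κ : Cardinal.{u}} (hκ : ℵ₀ ≤ κ)
    (hH : ∀ a, #(H a) ≤ κ) (U : ι → Set X) (hU : ∀ i, IsCompact (closure (U i)))
    (hcl : ∀ M, Cl H M → IsClopen (⋃ i ∈ M, U i)) :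
    ∀ (μ : Cardinal.{u}) (M : Set ι), #M = μ → Cl H M → DecK κ (⋃ i ∈ M, U i) := by
  intro μ
  induction μ using WellFoundedLT.induction with
  | ind μ ih =>
  intro M hMμ hM
  rcases le_or_gt μ κ with hμ | hμ
  · refine ⟨{⋃ i ∈ M, U i}, ?_, ?_, sUnion_singleton _⟩
    · intro c hc
      rw [mem_singleton_iff.mp hc]
      refine ⟨hcl M hM, ?_⟩
      have h1 : KCompact κ (⋃ i ∈ M, closure (U i)) := by
        refine ⟨(fun i => closure (U i)) '' M, mk_image_le.trans (hMμ.le.trans hμ), ?_, ?_⟩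
        · rintro _ ⟨i, -, rfl⟩
          exact hU i
        · rw [sUnion_image]
      exact h1.of_isClosed_subset (hcl M hM).1 (iUnion₂_mono fun i _ => subset_closure)
    · exact pairwiseDisjoint_singleton _ _
  · have hμ0 : ℵ₀ < μ := hκ.trans_lt hμ
    obtain ⟨r, hr, hr'⟩ := exists_ord_eq M
    -- the hulls of the closed initial segments
    let B : M → Set ι := fun i => hull H {x | ∃ j : M, (j : ι) = x ∧ ¬ r i j}
    have hBc : ∀ i, Cl H (B i) := fun i => cl_hull H _
    have hBM : ∀ i, B i ⊆ M := by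
      intro i
      apply hull_min H _ hM
      rintro _ ⟨j, rfl, -⟩
      exact j.2
    have hself : ∀ i : M, (i : ι) ∈ B i := by
      intro i
      apply subset_hull H
      exact ⟨i, rfl, irrefl i⟩
    have hmono : ∀ i j : M, r i j → B i ⊆ B j := by
      intro i j hij
      apply hull_min H _ (hBc j)
      rintro _ ⟨k, rfl, hk⟩
      apply subset_hull H
      refine ⟨k, rfl, ?_⟩
      intro hjk
      exact hk (_root_.trans hij hjk)
    have hBμ : ∀ i, #(B i) < μ := by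
      intro i
      have h1 : #({x | ∃ j : M, (j : ι) = x ∧ ¬ r i j} : Set ι) < μ := by
        have h2 : ({x | ∃ j : M, (j : ι) = x ∧ ¬ r i j} : Set ι) ⊆
            ((fun j : M => (j : ι)) '' {j | r j i}) ∪ {(i : ι)} := by
          rintro _ ⟨j, rfl, hj⟩
          rcases trichotomous_of r i j with h | h | h
          · exact absurd h hj
          · right
            rw [h]
            rfl
          · left
            exact ⟨j, h, rfl⟩
        refine (mk_le_mk_of_subset h2).trans_lt ((mk_union_le _ _).trans_lt ?_)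
        apply add_lt_of_lt hμ0.le
        · refine mk_image_le.trans_lt ?_
          have h3 := Cardinal.card_typein_lt (r := r) i hr'
          rw [Ordinal.card_typein, hMμ] at h3
          exact h3
        · rw [mk_singleton]
          exact one_lt_aleph0.trans hμ0
      have h4 := mk_hull_le H hH {x | ∃ j : M, (j : ι) = x ∧ ¬ r i j}
        (le_max_right (#({x | ∃ j : M, (j : ι) = x ∧ ¬ r i j} : Set ι)) κ)
        (hκ.trans (le_max_right _ _)) (le_max_left _ _)
      exact h4.trans_lt (max_lt h1 hμ)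
    -- the hulls of the open initial segments
    let A : M → Set ι := fun i => ⋃ j : {j : M // r j i}, B j
    have hAc : ∀ i, Cl H (A i) := by
      intro i
      apply cl_iUnion H (fun j : {j : M // r j i} => B j) (fun j => hBc j)
      rintro ⟨j, hj⟩ ⟨k, hk⟩
      rcases trichotomous_of r j k with h | h | h
      · exact ⟨⟨k, hk⟩, hmono j k h, subset_rfl⟩
      · subst h
        exact ⟨⟨j, hk⟩, subset_rfl, subset_rfl⟩
      · exact ⟨⟨j, hj⟩, subset_rfl, hmono k j h⟩
    let V : Set ι → Set X := fun N => ⋃ i ∈ N, U i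
    have hVmono : ∀ {N N' : Set ι}, N ⊆ N' → V N ⊆ V N' := fun h => biUnion_subset_biUnion_left h
    have ih' : ∀ i : M, DecK κ (V (B i)) := fun i => ih _ (hBμ i) (B i) rfl (hBc i)
    choose C hC1 hC2 hC3 using ih'
    refine ⟨⋃ i : M, (fun c => c \ V (A i)) '' C i, ?_, ?_, ?_⟩
    · intro c hc
      obtain ⟨i, d, hd, rfl⟩ := mem_iUnion.mp hc
      obtain ⟨h1, h2⟩ := hC1 i d hd
      have h3 : IsClopen (d \ V (A i)) := h1.diff (hcl _ (hAc i))
      exact ⟨h3, h2.of_isClosed_subset h3.1 sdiff_subset⟩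
    · intro e he e' he' hne
      obtain ⟨i, c, hc, rfl⟩ := mem_iUnion.mp he
      obtain ⟨i', c', hc', rfl⟩ := mem_iUnion.mp he'
      have hsub : ∀ (i : M) (c : Set X), c ∈ C i → c ⊆ V (B i) := by
        intro i c hc
        rw [← hC3 i]
        exact subset_sUnion_of_mem hc
      have hlt : ∀ (i i' : M) (c c' : Set X), c ∈ C i → r i i' →
          Disjoint (c \ V (A i)) (c' \ V (A i')) := by
        intro i i' c c' hc hii
        rw [Set.disjoint_left]
        intro x hx hx'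
        apply hx'.2
        have h1 : B i ⊆ A i' := subset_iUnion (fun j : {j : M // r j i'} => B j) ⟨i, hii⟩
        exact hVmono h1 (hsub i c hc hx.1)
      change Disjoint (c \ V (A i)) (c' \ V (A i'))
      rcases trichotomous_of r i i' with h | h | h
      · exact hlt i i' c c' hc h
      · subst h
        have h1 : c ≠ c' := by
          rintro rfl
          exact hne rfl
        exact (hC2 i hc hc' h1).mono sdiff_subset sdiff_subset
      · exact (hlt i' i c' c hc' h).symm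
    · apply subset_antisymm
      · apply sUnion_subset
        intro e he
        obtain ⟨i, c, hc, rfl⟩ := mem_iUnion.mp he
        refine sdiff_subset.trans ?_
        refine (subset_sUnion_of_mem hc).trans ?_
        rw [hC3 i]
        exact hVmono (hBM i)
      · intro x hx
        -- the least index with `x ∈ V (B i)`
        have hne : {i : M | x ∈ V (B i)}.Nonempty := by
          obtain ⟨i, hi, hxi⟩ := mem_iUnion₂.mp hx
          exact ⟨⟨i, hi⟩, mem_iUnion₂.mpr ⟨i, hself ⟨i, hi⟩, hxi⟩⟩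
        let i0 := hr.wf.min _ hne
        have hi0 : x ∈ V (B i0) := hr.wf.min_mem _ hne
        have hmin : ∀ j, r j i0 → x ∉ V (B j) := fun j hj h => hr.wf.not_lt_min _ h hj
        have h1 : x ∈ ⋃₀ C i0 := by
          rw [hC3 i0]
          exact hi0
        obtain ⟨c, hc, hxc⟩ := h1
        refine ⟨c \ V (A i0), mem_iUnion.mpr ⟨i0, c, hc, rfl⟩, hxc, ?_⟩
        intro h2
        obtain ⟨k, hk, hxk⟩ := mem_iUnion₂.mp h2
        obtain ⟨⟨j, hj⟩, hkj⟩ := mem_iUnion.mp hk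
        exact hmin j hj (mem_iUnion₂.mpr ⟨k, hkj, hxk⟩)

theorem dec_univ {ι : Type u} (H : Finset ι → Set ι) {κ : Cardinal.{u}} (hκ : ℵ₀ ≤ κ)
    (hH : ∀ a, #(H a) ≤ κ) (U : ι → Set X) (hU : ∀ i, IsCompact (closure (U i)))
    (hcov : ⋃ i, U i = Set.univ)
    (hcl : ∀ M, Cl H M → IsClopen (⋃ i ∈ M, U i)) : DecK κ (Set.univ : Set X) := by
  have h1 := dec_of_cl H hκ hH U hU hcl _ Set.univ rfl (fun _ _ _ => subset_univ _)
  rwa [biUnion_univ, hcov] at h1

end Dec

/-! ### The key lemma -/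

section Key

variable {X : Type u} [TopologicalSpace X]

open Filter in
/-- The key lemma: unions of closed families are clopen. -/
theorem clopen_of_cl {ι : Type u} (H : Finset ι → Set ι) (U : ι → Set X)
    (hUo : ∀ i, IsOpen (U i)) (hUc : ∀ i, IsCompact (closure (U i)))
    (V : Set (Set X)) (hVo : ∀ v ∈ V, IsOpen v) (O₁ O₂ : Set (X × X)) (hO₂ : IsOpen O₂)
    (hd : Set.diagonal X ⊆ O₂)
    (hO₁ : closure O₁ ⊆ ⋃ v ∈ V, v ×ˢ v) (hUO : ∀ i, U i ×ˢ U i ⊆ O₁)
    (h1 : ∀ i j x y, (x, y) ∈ O₂ → x ∈ U i → y ∈ U j →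
      ∃ a : Finset ι, i ∈ a ∧ j ∈ a ∧ (a : Set ι) ⊆ {i, j} ∧ ∃ k ∈ H a, x ∈ U k ∧ y ∈ U k)
    (u : Finset ι → X) (hu : ∀ (a : Finset ι) (x : X), (∀ k ∈ a, x ∈ U k) → ∀ k ∈ a, u a ∈ U k)
    (h2 : ∀ a : Finset ι, ∀ v ∈ V, u a ∈ v → v ⊆ ⋃ k ∈ H a, U k) (M : Set ι) (hM : Cl H M) :
    IsClopen (⋃ i ∈ M, U i) := by
  classical
  refine ⟨?_, isOpen_biUnion fun i _ => hUo i⟩
  apply isClosed_of_closure_subset
  intro z hz
  by_contra hzM
  have hzO : (z, z) ∈ O₂ := hd rfl
  obtain ⟨W1, W2, hW1, hW2, hz1, hz2, hW⟩ := isOpen_prod_iff.mp hO₂ z z hzO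
  obtain ⟨x, ⟨hxW1, hxW2⟩, hxM⟩ := mem_closure_iff.mp hz (W1 ∩ W2) (hW1.inter hW2) ⟨hz1, hz2⟩
  obtain ⟨i, hi, hxi⟩ := mem_iUnion₂.mp hxM
  -- the chosen points of the finite intersections around `x`
  let A := {k : ι // k ∈ M ∧ x ∈ U k}
  let f : Finset A → X := fun b => u (b.map (Function.Embedding.subtype _))
  have hfk : ∀ (k : A) (b : Finset A), k ∈ b → f b ∈ U (k : ι) := by
    intro k b hk
    apply hu _ x
    · intro l hl
      obtain ⟨m, -, rfl⟩ := Finset.mem_map.mp hl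
      exact m.2.2
    · exact Finset.mem_map.mpr ⟨k, hk, rfl⟩
  have hev : ∀ k : A, ∀ᶠ b : Finset A in atTop, k ∈ b := by
    intro k
    filter_upwards [eventually_ge_atTop ({k} : Finset A)] with b hb
    exact hb (Finset.mem_singleton_self k)
  obtain ⟨p, hp, hcp⟩ : ∃ p ∈ closure (U i), MapClusterPt p atTop f := by
    apply (hUc i).exists_mapClusterPt
    rw [le_principal_iff, mem_map]
    filter_upwards [hev ⟨i, hi, hxi⟩] with b hb
    exact subset_closure (hfk ⟨i, hi, hxi⟩ b hb)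
  rw [mapClusterPt_iff_frequently] at hcp
  -- `(p, z)` is not in `⋃ v × v`
  have hpz : (p, z) ∉ closure O₁ := by
    intro h3
    obtain ⟨v, hv, hpv, hzv⟩ := mem_iUnion₂.mp (hO₁ h3)
    obtain ⟨b, hb, hib⟩ := ((hcp v ((hVo v hv).mem_nhds hpv)).and_eventually
      (hev ⟨i, hi, hxi⟩)).exists
    obtain ⟨k, hk, hzk⟩ := mem_iUnion₂.mp (h2 _ v hv hb hzv)
    apply hzM
    refine mem_iUnion₂.mpr ⟨k, hM _ ⟨i, Finset.mem_map.mpr ⟨⟨i, hi, hxi⟩, hib, rfl⟩⟩ ?_ hk, hzk⟩
    intro l hl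
    obtain ⟨m, -, rfl⟩ := Finset.mem_map.mp (Finset.mem_coe.mp hl)
    exact m.2.1
  obtain ⟨N1, N2, hN1, hN2, hpN, hzN, hN⟩ :=
    isOpen_prod_iff.mp isClosed_closure.isOpen_compl p z hpz
  obtain ⟨y, ⟨⟨-, hyW2⟩, hyN⟩, hyM⟩ := mem_closure_iff.mp hz ((W1 ∩ W2) ∩ N2)
    ((hW1.inter hW2).inter hN2) ⟨⟨hz1, hz2⟩, hzN⟩
  obtain ⟨j, hj, hyj⟩ := mem_iUnion₂.mp hyM
  obtain ⟨a, hia, -, ha, k, hk, hxk, hyk⟩ := h1 i j x y (hW ⟨hxW1, hyW2⟩) hxi hyj
  have hkM : k ∈ M := by
    refine hM a ⟨i, hia⟩ (ha.trans ?_) hk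
    rintro l (rfl | rfl)
    · exact hi
    · exact hj
  obtain ⟨b, hb, hkb⟩ := ((hcp N1 (hN1.mem_nhds hpN)).and_eventually
    (hev ⟨k, hkM, hxk⟩)).exists
  have h3 : (f b, y) ∈ O₁ := hUO k ⟨hfk ⟨k, hkM, hxk⟩ b hkb, hyk⟩
  exact hN (mk_mem_prod hb hyN) (subset_closure h3)

/-- Every open cover has an open refinement such that every point is in at most `κ` members. -/
def MetaK (κ : Cardinal.{u}) (X : Type u) [TopologicalSpace X] : Prop :=
  ∀ U : Set (Set X), (∀ u ∈ U, IsOpen u) → ⋃₀ U = Set.univ →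
    ∃ V : Set (Set X), (∀ v ∈ V, IsOpen v) ∧ ⋃₀ V = Set.univ ∧
      (∀ v ∈ V, ∃ u ∈ U, v ⊆ u) ∧ ∀ x : X, #{v | v ∈ V ∧ x ∈ v} ≤ κ

theorem decK_of_diagonalNormal [LocallyCompactSpace X] [T2Space X] {κ : Cardinal.{u}}
    (hκ : ℵ₀ ≤ κ) (hm : MetaK κ X) (hd : DiagonalNormal X) : DecK κ (Set.univ : Set X) := by
  classical
  rcases isEmpty_or_nonempty X with hX | hX
  · refine ⟨∅, fun c hc => absurd hc (notMem_empty c), pairwiseDisjoint_empty, ?_⟩
    rw [sUnion_empty]
    exact (univ_eq_empty_iff.mpr hX).symm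
  -- the first cover
  obtain ⟨V, hVo, hVc, hVr, hVk⟩ := hm {w | IsOpen w ∧ IsCompact (closure w)} (fun w hw => hw.1)
    (by
      apply eq_univ_of_forall
      intro x
      obtain ⟨w, hw1, hw2, hw3⟩ := exists_relcompact x
      exact ⟨w, ⟨hw1, hw2⟩, hw3⟩)
  have hVcpt : ∀ v : V, IsCompact (closure (v : Set X)) := by
    intro v
    obtain ⟨w, ⟨-, hw⟩, hvw⟩ := hVr v v.2
    exact hw.of_isClosed_subset isClosed_closure (closure_mono hvw)
  obtain ⟨O₁, hO₁, hdO₁, hO₁V⟩ := hd (⋃ v ∈ V, v ×ˢ v)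
    (isOpen_biUnion fun v hv => (hVo v hv).prod (hVo v hv)) (by
      rintro ⟨x, y⟩ hxy
      have hxy' : x = y := hxy
      subst hxy'
      obtain ⟨v, hv, hxv⟩ : x ∈ ⋃₀ V := by
        rw [hVc]
        trivial
      exact mem_iUnion₂.mpr ⟨v, hv, hxv, hxv⟩)
  -- the second cover
  obtain ⟨V', hVo', hVc', hVr', -⟩ := hm
    {w | IsOpen w ∧ IsCompact (closure w) ∧ w ×ˢ w ⊆ O₁} (fun w hw => hw.1) (by
      apply eq_univ_of_forall
      intro x
      obtain ⟨w, hw1, hw2, hw3⟩ := exists_relcompact x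
      have hxO : (x, x) ∈ O₁ := hdO₁ rfl
      obtain ⟨W1, W2, hW1, hW2, hx1, hx2, hW⟩ := isOpen_prod_iff.mp hO₁ x x hxO
      refine ⟨w ∩ (W1 ∩ W2), ⟨hw1.inter (hW1.inter hW2), ?_, ?_⟩, hw3, hx1, hx2⟩
      · exact hw2.of_isClosed_subset isClosed_closure (closure_mono inter_subset_left)
      · rintro ⟨a, b⟩ ⟨ha, hb⟩
        exact hW ⟨ha.2.1, hb.2.2⟩)
  have hcpt : ∀ v : V', IsCompact (closure (v : Set X)) := by
    intro v
    obtain ⟨w, ⟨-, hw, -⟩, hvw⟩ := hVr' v v.2
    exact hw.of_isClosed_subset isClosed_closure (closure_mono hvw)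
  have hUO : ∀ v : V', (v : Set X) ×ˢ (v : Set X) ⊆ O₁ := by
    intro v
    obtain ⟨w, ⟨-, -, hw⟩, hvw⟩ := hVr' v v.2
    exact (prod_mono hvw hvw).trans hw
  have hcov : ⋃ v : V', (v : Set X) = Set.univ := by
    rw [← sUnion_eq_iUnion]
    exact hVc'
  obtain ⟨O₂, hO₂, hdO₂, hO₂V⟩ := hd (⋃ v : V', (v : Set X) ×ˢ (v : Set X))
    (isOpen_iUnion fun v => (hVo' v v.2).prod (hVo' v v.2)) (by
      rintro ⟨x, y⟩ hxy
      have hxy' : x = y := hxy
      subst hxy'
      have h1 : x ∈ ⋃ v : V', (v : Set X) := by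
        rw [hcov]
        trivial
      obtain ⟨v, hv⟩ := mem_iUnion.mp h1
      exact mem_iUnion.mpr ⟨v, hv, hv⟩)
  -- the operations
  have h1 : ∀ i j : V', ∃ t : Finset V',
      (closure (i : Set X) ×ˢ closure (j : Set X)) ∩ closure O₂ ⊆
        ⋃ k ∈ t, (k : Set X) ×ˢ (k : Set X) := by
    intro i j
    exact (((hcpt i).prod (hcpt j)).inter_right isClosed_closure).elim_finite_subcover
      (fun k : V' => (k : Set X) ×ˢ (k : Set X)) (fun k => (hVo' k k.2).prod (hVo' k k.2))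
      (inter_subset_right.trans hO₂V)
  have h2 : ∀ v : V, ∃ t : Finset V', closure (v : Set X) ⊆ ⋃ k ∈ t, (k : Set X) := by
    intro v
    exact (hVcpt v).elim_finite_subcover (fun k : V' => (k : Set X)) (fun k => hVo' k k.2) (by
      rw [hcov]
      exact subset_univ _)
  have h3 : ∀ a : Finset V', ∃ y : X, ∀ x : X, (∀ k ∈ a, x ∈ (k : Set X)) →
      ∀ k ∈ a, y ∈ (k : Set X) := by
    intro a
    by_cases h : ∃ x : X, ∀ k ∈ a, x ∈ (k : Set X)
    · obtain ⟨y, hy⟩ := h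
      exact ⟨y, fun _ _ => hy⟩
    · exact ⟨Classical.arbitrary X, fun x hx => absurd ⟨x, hx⟩ h⟩
  choose f hf using h1
  choose g hg using h2
  choose p hp using h3
  let H : Finset V' → Set V' := fun a =>
    (⋃ v : {v : V // p a ∈ (v : Set X)}, ((g v : Finset V') : Set V')) ∪
      ⋃ q : a × a, ((f q.1 q.2 : Finset V') : Set V')
  have hH : ∀ a, #(H a) ≤ κ := by
    intro a
    have e1 : #(⋃ v : {v : V // p a ∈ (v : Set X)}, ((g v : Finset V') : Set V') : Set V') ≤ κ := by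
      refine (mk_iUnion_le _).trans ?_
      have e2 : #{v : V // p a ∈ (v : Set X)} ≤ κ := by
        refine le_trans ?_ (hVk (p a))
        refine mk_le_of_injective (f := fun v : {v : V // p a ∈ (v : Set X)} =>
          (⟨(v : V), (v : V).2, v.2⟩ : {v | v ∈ V ∧ p a ∈ v})) ?_
        intro v v' h
        exact Subtype.ext (Subtype.ext (Subtype.mk.inj h))
      have e3 : (⨆ v : {v : V // p a ∈ (v : Set X)}, #((g v : Finset V') : Set V')) ≤ κ :=
        ciSup_le' fun v => (le_aleph0_iff_set_countable.mpr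
          (Finset.finite_toSet (g v)).countable).trans hκ
      exact (mul_le_mul' e2 e3).trans (mul_eq_self hκ).le
    have e4 : #(⋃ q : a × a, ((f q.1 q.2 : Finset V') : Set V') : Set V') ≤ κ := by
      refine (le_aleph0_iff_set_countable.mpr ?_).trans hκ
      exact countable_iUnion fun q => (Finset.finite_toSet _).countable
    exact (mk_union_le _ _).trans ((add_le_add e1 e4).trans (add_eq_self hκ).le)
  refine dec_univ H hκ hH (fun v : V' => (v : Set X)) hcpt hcov ?_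
  intro M hM
  refine clopen_of_cl H (fun v : V' => (v : Set X)) (fun v => hVo' v v.2) hcpt V hVo O₁ O₂ hO₂ hdO₂
    hO₁V hUO ?_ p hp ?_ M hM
  · intro i j x y hxy hx hy
    have h3 := hf i j ⟨⟨subset_closure hx, subset_closure hy⟩, subset_closure hxy⟩
    obtain ⟨k, hk, hk2⟩ := mem_iUnion₂.mp h3
    refine ⟨{i, j}, Finset.mem_insert_self _ _,
      Finset.mem_insert_of_mem (Finset.mem_singleton_self _), by simp, k, ?_, hk2.1, hk2.2⟩
    exact Or.inr (mem_iUnion.mpr ⟨(⟨i, Finset.mem_insert_self _ _⟩,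
      ⟨j, Finset.mem_insert_of_mem (Finset.mem_singleton_self _)⟩), Finset.mem_coe.mpr hk⟩)
  · intro a v hv hav x hx
    obtain ⟨k, hk, hxk⟩ := mem_iUnion₂.mp (hg ⟨v, hv⟩ (subset_closure hx))
    exact mem_iUnion₂.mpr ⟨k, Or.inl (mem_iUnion.mpr ⟨⟨⟨v, hv⟩, hav⟩, Finset.mem_coe.mpr hk⟩), hxk⟩

end Key

/-! ### The theorems -/

theorem dec_of_decK {X : Type u} [TopologicalSpace X] (h : DecK ℵ₀ (Set.univ : Set X)) :
    Dec (Set.univ : Set X) := by
  obtain ⟨C, h1, h2, h3⟩ := h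
  exact ⟨C, fun c hc => ⟨(h1 c hc).1, (h1 c hc).2.isSigmaCompact⟩, h2, h3⟩

/-- For locally compact metalindelöf Hausdorff spaces, paracompactness, normality of the square,
separation of the diagonal and being a topological sum of `σ`-compact spaces are equivalent. -/
theorem main (X : Type u) [TopologicalSpace X] [T2Space X] [LocallyCompactSpace X]
    (hm : MetaK ℵ₀ X) :
    (ParacompactSpace X ↔ NormalSpace (X × X)) ∧ (ParacompactSpace X ↔ DiagonalNormal X) ∧
      (DiagonalNormal X → Dec (Set.univ : Set X)) := by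
  have h1 : ParacompactSpace X → NormalSpace (X × X) := by
    intro h
    have := paracompact_of_dec (dec_prod (dec_of_paracompact (X := X)))
    infer_instance
  have h2 : NormalSpace (X × X) → DiagonalNormal X := fun h => diagonalNormal_of_normal
  have h4 : DiagonalNormal X → Dec (Set.univ : Set X) := fun h =>
    dec_of_decK (decK_of_diagonalNormal le_rfl hm h)
  have h3 : DiagonalNormal X → ParacompactSpace X := fun h => paracompact_of_dec (h4 h)
  exact ⟨⟨h1, fun h => h3 (h2 h)⟩, ⟨fun h => h2 (h1 h), h3⟩, h4⟩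

end Pool.Agent.SqNormal.Lind
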