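import Mathlib

/-!
# Locally compact metacompact spaces with normal square
-/

set_option autoImplicit false

open Set Topology Cardinal

universe u

namespace Pool.Agent.SqNormal

/-! ### Closed sets of indices -/

section Hull

variable {ι : Type u} (F : ι → ι → Set ι)

/-- `M` is closed under the binary set-valued operation `F`. -/
def Cl (M : Set ι) : Prop := ∀ i ∈ M, ∀ j ∈ M, F i j ⊆ M

/-- One step of the closure. -/
def step (A : Set ι) : Set ι := A ∪ ⋃ p : A × A, F p.1 p.2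

/-- The closure of `A` under `F`. -/
def hull (A : Set ι) : Set ι := ⋃ n : ℕ, (step F)^[n] A

theorem subset_step (A : Set ι) : A ⊆ step F A := subset_union_left

theorem iter_mono (A : Set ι) : Monotone (fun n => (step F)^[n] A) := by
  apply monotone_nat_of_le_succ
  intro n
  simp only [Function.iterate_succ_apply']
  exact subset_step F _

theorem subset_hull (A : Set ι) : A ⊆ hull F A := subset_iUnion (fun n => (step F)^[n] A) 0

theorem cl_hull (A : Set ι) : Cl F (hull F A) := by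
  intro i hi j hj k hk
  obtain ⟨n, hn⟩ := mem_iUnion.mp hi
  obtain ⟨m, hm⟩ := mem_iUnion.mp hj
  have h1 : i ∈ (step F)^[max n m] A := iter_mono F A (le_max_left n m) hn
  have h2 : j ∈ (step F)^[max n m] A := iter_mono F A (le_max_right n m) hm
  refine mem_iUnion.mpr ⟨max n m + 1, ?_⟩
  rw [Function.iterate_succ_apply']
  exact Or.inr (mem_iUnion.mpr ⟨(⟨i, h1⟩, ⟨j, h2⟩), hk⟩)

theorem hull_min {A M : Set ι} (h : A ⊆ M) (hM : Cl F M) : hull F A ⊆ M := by
  apply iUnion_subset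
  intro n
  induction n with
  | zero => exact h
  | succ n ih =>
    rw [Function.iterate_succ_apply']
    apply union_subset ih
    apply iUnion_subset
    rintro ⟨⟨i, hi⟩, ⟨j, hj⟩⟩
    exact hM i (ih hi) j (ih hj)

theorem mk_step_le (hF : ∀ i j, (F i j).Countable) (A : Set ι) {μ : Cardinal.{u}} (hμ : ℵ₀ ≤ μ)
    (hA : #A ≤ μ) : #(step F A) ≤ μ := by
  have h1 : #(⋃ p : A × A, F p.1 p.2) ≤ μ := by
    refine (mk_iUnion_le _).trans ?_
    have h2 : #(A × A) ≤ μ := by
      rw [mk_prod]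
      simp only [lift_id]
      exact (mul_le_mul' hA hA).trans (mul_eq_self hμ).le
    have h3 : (⨆ p : A × A, #(F p.1 p.2)) ≤ μ := by
      apply ciSup_le'
      intro p
      exact ((hF p.1 p.2).le_aleph0).trans hμ
    exact (mul_le_mul' h2 h3).trans (mul_eq_self hμ).le
  exact (mk_union_le _ _).trans ((add_le_add hA h1).trans (add_eq_self hμ).le)

theorem mk_hull_le (hF : ∀ i j, (F i j).Countable) (A : Set ι) {μ : Cardinal.{u}} (hμ : ℵ₀ ≤ μ)
    (hA : #A ≤ μ) : #(hull F A) ≤ μ := by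
  have h1 : ∀ n : ℕ, #((step F)^[n] A : Set ι) ≤ μ := by
    intro n
    induction n with
    | zero => exact hA
    | succ n ih =>
      rw [Function.iterate_succ_apply']
      exact mk_step_le F hF _ hμ ih
  have h2 := mk_iUnion_le_lift (fun n : ℕ => (step F)^[n] A)
  rw [lift_uzero] at h2
  refine h2.trans ?_
  have h3 : lift.{u} #ℕ ≤ μ := by
    rw [mk_nat, lift_aleph0]
    exact hμ
  have h4 : (⨆ n : ℕ, lift.{0} #((step F)^[n] A : Set ι)) ≤ μ := by
    apply ciSup_le'
    intro n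
    rw [lift_uzero]
    exact h1 n
  exact (mul_le_mul' h3 h4).trans (mul_eq_self hμ).le

/-- A directed union of closed sets is closed. -/
theorem cl_iUnion {κ : Type*} (B : κ → Set ι) (hB : ∀ k, Cl F (B k))
    (hd : ∀ k l, ∃ r, B k ⊆ B r ∧ B l ⊆ B r) : Cl F (⋃ k, B k) := by
  intro i hi j hj
  obtain ⟨k, hk⟩ := mem_iUnion.mp hi
  obtain ⟨l, hl⟩ := mem_iUnion.mp hj
  obtain ⟨r, hr1, hr2⟩ := hd k l
  exact (hB r i (hr1 hk) j (hr2 hl)).trans (subset_iUnion B r)

end Hull

/-! ### Decompositions -/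

section Dec

variable {X : Type u} [TopologicalSpace X]

/-- `Y` is the disjoint union of clopen `σ`-compact subsets of `X`. -/
def Dec (Y : Set X) : Prop :=
  ∃ C : Set (Set X), (∀ c ∈ C, IsClopen c ∧ IsSigmaCompact c) ∧ C.PairwiseDisjoint id ∧ ⋃₀ C = Y

theorem dec_of_cl {ι : Type u} (F : ι → ι → Set ι) (hF : ∀ i j, (F i j).Countable)
    (U : ι → Set X) (hU : ∀ i, IsCompact (closure (U i)))
    (hcl : ∀ M, Cl F M → IsClopen (⋃ i ∈ M, U i)) :
    ∀ (μ : Cardinal.{u}) (M : Set ι), #M = μ → Cl F M → Dec (⋃ i ∈ M, U i) := by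
  intro μ
  induction μ using WellFoundedLT.induction with
  | ind μ ih =>
  intro M hMμ hM
  rcases le_or_gt μ ℵ₀ with hμ | hμ
  · refine ⟨{⋃ i ∈ M, U i}, ?_, ?_, sUnion_singleton _⟩
    · intro c hc
      rw [mem_singleton_iff.mp hc]
      refine ⟨hcl M hM, ?_⟩
      have hMc : M.Countable := by
        rw [← le_aleph0_iff_set_countable, hMμ]
        exact hμ
      have h1 : IsSigmaCompact (⋃ i ∈ M, closure (U i)) :=
        isSigmaCompact_biUnion hMc (fun i _ => (hU i).isSigmaCompact)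
      exact h1.of_isClosed_subset (hcl M hM).1 (iUnion₂_mono fun i _ => subset_closure)
    · exact pairwiseDisjoint_singleton _ _
  · obtain ⟨r, hr, hr'⟩ := exists_ord_eq M
    -- the hulls of the closed initial segments
    let B : M → Set ι := fun i => hull F {x | ∃ j : M, (j : ι) = x ∧ ¬ r i j}
    have hBc : ∀ i, Cl F (B i) := fun i => cl_hull F _
    have hBM : ∀ i, B i ⊆ M := by
      intro i
      apply hull_min F _ hM
      rintro _ ⟨j, rfl, -⟩
      exact j.2
    have hself : ∀ i : M, (i : ι) ∈ B i := by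
      intro i
      apply subset_hull F
      exact ⟨i, rfl, irrefl i⟩
    have hmono : ∀ i j : M, r i j → B i ⊆ B j := by
      intro i j hij
      apply hull_min F _ (hBc j)
      rintro _ ⟨k, rfl, hk⟩
      apply subset_hull F
      refine ⟨k, rfl, ?_⟩
      intro hjk
      exact hk (_root_.trans hij hjk)
    have hBμ : ∀ i, #(B i) < μ := by
      intro i
      have h1 : #({x | ∃ j : M, (j : ι) = x ∧ ¬ r i j} : Set ι) < μ := by
        have h2 : ({x | ∃ j : M, (j : ι) = x ∧ ¬ r i j} : Set ι) ⊆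
            ((fun j : M => (j : ι)) '' {j | r j i}) ∪ {(i : ι)} := by
          rintro _ ⟨j, rfl, hj⟩
          rcases trichotomous_of r i j with h | h | h
          · exact absurd h hj
          · right
            rw [h]
            rfl
          · left
            exact ⟨j, h, rfl⟩
        refine (mk_le_mk_of_subset h2).trans_lt ((mk_union_le _ _).trans_lt ?_)
        apply add_lt_of_lt hμ.le
        · refine mk_image_le.trans_lt ?_
          have h3 := Cardinal.card_typein_lt (r := r) i hr'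
          rw [Ordinal.card_typein, hMμ] at h3
          exact h3
        · rw [mk_singleton]
          exact one_lt_aleph0.trans hμ
      have h4 := mk_hull_le F hF {x | ∃ j : M, (j : ι) = x ∧ ¬ r i j}
        (le_max_right (#({x | ∃ j : M, (j : ι) = x ∧ ¬ r i j} : Set ι)) ℵ₀) (le_max_left _ _)
      exact h4.trans_lt (max_lt h1 hμ)
    -- the hulls of the open initial segments
    let A : M → Set ι := fun i => ⋃ j : {j : M // r j i}, B j
    have hAc : ∀ i, Cl F (A i) := by
      intro i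
      apply cl_iUnion F (fun j : {j : M // r j i} => B j) (fun j => hBc j)
      rintro ⟨j, hj⟩ ⟨k, hk⟩
      rcases trichotomous_of r j k with h | h | h
      · exact ⟨⟨k, hk⟩, hmono j k h, subset_rfl⟩
      · subst h
        exact ⟨⟨j, hk⟩, subset_rfl, subset_rfl⟩
      · exact ⟨⟨j, hj⟩, subset_rfl, hmono k j h⟩
    let V : Set ι → Set X := fun N => ⋃ i ∈ N, U i
    have hVmono : ∀ {N N' : Set ι}, N ⊆ N' → V N ⊆ V N' := fun h => biUnion_subset_biUnion_left h
    have ih' : ∀ i : M, Dec (V (B i)) := fun i => ih _ (hBμ i) (B i) rfl (hBc i)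
    choose C hC1 hC2 hC3 using ih'
    refine ⟨⋃ i : M, (fun c => c \ V (A i)) '' C i, ?_, ?_, ?_⟩
    · intro c hc
      obtain ⟨i, d, hd, rfl⟩ := mem_iUnion.mp hc
      obtain ⟨h1, h2⟩ := hC1 i d hd
      have h3 : IsClopen (d \ V (A i)) := h1.diff (hcl _ (hAc i))
      exact ⟨h3, h2.of_isClosed_subset h3.1 sdiff_subset⟩
    · intro e he e' he' hne
      obtain ⟨i, c, hc, rfl⟩ := mem_iUnion.mp he
      obtain ⟨i', c', hc', rfl⟩ := mem_iUnion.mp he'
      have hsub : ∀ (i : M) (c : Set X), c ∈ C i → c ⊆ V (B i) := by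
        intro i c hc
        rw [← hC3 i]
        exact subset_sUnion_of_mem hc
      have hlt : ∀ (i i' : M) (c c' : Set X), c ∈ C i → r i i' →
          Disjoint (c \ V (A i)) (c' \ V (A i')) := by
        intro i i' c c' hc hii
        rw [Set.disjoint_left]
        intro x hx hx'
        apply hx'.2
        have h1 : B i ⊆ A i' := subset_iUnion (fun j : {j : M // r j i'} => B j) ⟨i, hii⟩
        exact hVmono h1 (hsub i c hc hx.1)
      change Disjoint (c \ V (A i)) (c' \ V (A i'))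
      rcases trichotomous_of r i i' with h | h | h
      · exact hlt i i' c c' hc h
      · subst h
        have h1 : c ≠ c' := by
          rintro rfl
          exact hne rfl
        exact (hC2 i hc hc' h1).mono sdiff_subset sdiff_subset
      · exact (hlt i' i c' c hc' h).symm
    · apply subset_antisymm
      · apply sUnion_subset
        intro e he
        obtain ⟨i, c, hc, rfl⟩ := mem_iUnion.mp he
        refine sdiff_subset.trans ?_
        refine (subset_sUnion_of_mem hc).trans ?_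
        rw [hC3 i]
        exact hVmono (hBM i)
      · intro x hx
        -- the least index with `x ∈ V (B i)`
        have hne : {i : M | x ∈ V (B i)}.Nonempty := by
          obtain ⟨i, hi, hxi⟩ := mem_iUnion₂.mp hx
          exact ⟨⟨i, hi⟩, mem_iUnion₂.mpr ⟨i, hself ⟨i, hi⟩, hxi⟩⟩
        let i0 := hr.wf.min _ hne
        have hi0 : x ∈ V (B i0) := hr.wf.min_mem _ hne
        have hmin : ∀ j, r j i0 → x ∉ V (B j) := fun j hj h => hr.wf.not_lt_min _ h hj
        have h1 : x ∈ ⋃₀ C i0 := by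
          rw [hC3 i0]
          exact hi0
        obtain ⟨c, hc, hxc⟩ := h1
        refine ⟨c \ V (A i0), mem_iUnion.mpr ⟨i0, c, hc, rfl⟩, hxc, ?_⟩
        intro h2
        obtain ⟨k, hk, hxk⟩ := mem_iUnion₂.mp h2
        obtain ⟨⟨j, hj⟩, hkj⟩ := mem_iUnion.mp hk
        exact hmin j hj (mem_iUnion₂.mpr ⟨k, hkj, hxk⟩)

theorem dec_univ {ι : Type u} (F : ι → ι → Set ι) (hF : ∀ i j, (F i j).Countable)
    (U : ι → Set X) (hU : ∀ i, IsCompact (closure (U i))) (hcov : ⋃ i, U i = Set.univ)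
    (hcl : ∀ M, Cl F M → IsClopen (⋃ i ∈ M, U i)) : Dec (Set.univ : Set X) := by
  have h1 := dec_of_cl F hF U hU hcl _ Set.univ rfl (fun i _ j _ => subset_univ _)
  rwa [biUnion_univ, hcov] at h1

theorem paracompact_of_dec [T2Space X] [LocallyCompactSpace X] (h : Dec (Set.univ : Set X)) :
    ParacompactSpace X := by
  obtain ⟨C, hC, hdis, hcov⟩ := h
  constructor
  intro α s hso hsc
  have h1 : ∀ c : C, ∃ t : α → Set (c : Set X), (∀ a, IsOpen (t a)) ∧ ⋃ a, t a = Set.univ ∧
      LocallyFinite t ∧ ∀ a, t a ⊆ (fun x : (c : Set X) => (x : X)) ⁻¹' s a := by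
    intro c
    obtain ⟨hc1, hc2⟩ := hC c c.2
    have : SigmaCompactSpace (c : Set X) := isSigmaCompact_iff_sigmaCompactSpace.mp hc2
    have : LocallyCompactSpace (c : Set X) := hc1.1.isClosedEmbedding_subtypeVal.locallyCompactSpace
    apply precise_refinement (fun a => (fun x : (c : Set X) => (x : X)) ⁻¹' s a)
    · intro a
      exact (hso a).preimage continuous_subtype_val
    · rw [← preimage_iUnion, hsc, preimage_univ]
  choose t ht1 ht2 ht3 ht4 using h1
  have huniq : ∀ (c c' : C) (x : X), x ∈ (c : Set X) → x ∈ (c' : Set X) → c = c' := by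
    intro c c' x hx hx'
    by_contra hne
    have h2 := hdis c.2 c'.2 (fun h => hne (Subtype.ext h))
    exact Set.disjoint_left.mp h2 hx hx'
  refine ⟨C × α, fun p => (fun x : (p.1 : Set X) => (x : X)) '' t p.1 p.2, ?_, ?_, ?_, ?_⟩
  · intro p
    exact (hC p.1 p.1.2).1.2.isOpenMap_subtype_val _ (ht1 p.1 p.2)
  · apply eq_univ_of_forall
    intro x
    obtain ⟨c, hc, hxc⟩ : x ∈ ⋃₀ C := by
      rw [hcov]
      trivial
    have h2 : (⟨x, hxc⟩ : c) ∈ ⋃ a, t ⟨c, hc⟩ a := by
      rw [ht2]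
      trivial
    obtain ⟨a, ha⟩ := mem_iUnion.mp h2
    exact mem_iUnion.mpr ⟨(⟨c, hc⟩, a), ⟨x, hxc⟩, ha, rfl⟩
  · intro x
    obtain ⟨c, hc, hxc⟩ : x ∈ ⋃₀ C := by
      rw [hcov]
      trivial
    obtain ⟨n, hn, hfin⟩ := ht3 ⟨c, hc⟩ ⟨x, hxc⟩
    refine ⟨(fun x : c => (x : X)) '' n, ?_, ?_⟩
    · exact (hC c hc).1.2.isOpenMap_subtype_val.image_mem_nhds hn
    · refine (hfin.image (fun a => ((⟨c, hc⟩ : C), a))).subset ?_
      rintro ⟨c', a⟩ ⟨_, ⟨y, hy, rfl⟩, ⟨z, hz, hyz⟩⟩
      have hzy : (z : X) = (y : X) := hyz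
      have hcc : c' = (⟨c, hc⟩ : C) := huniq c' ⟨c, hc⟩ (y : X) y.2 (by rw [← hzy]; exact z.2)
      subst hcc
      have hyz' : z = y := Subtype.ext hzy
      subst hyz'
      exact ⟨a, ⟨z, hy, hz⟩, rfl⟩
  · rintro ⟨c, a⟩
    refine ⟨a, ?_⟩
    rintro _ ⟨x, hx, rfl⟩
    exact ht4 c a hx

end Dec

/-! ### Covers by relatively compact sets -/

section Cover

variable {X : Type u} [TopologicalSpace X]

/-- The key lemma: unions of closed families are clopen. -/
theorem clopen_of_cl {ι : Type u} (F : ι → ι → Set ι) (U : ι → Set X) (hUo : ∀ i, IsOpen (U i))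
    (hfin : ∀ x, {i | x ∈ U i}.Finite) (O : Set (X × X)) (hO : IsOpen O)
    (hd : Set.diagonal X ⊆ O)
    (h1 : ∀ i j x y, (x, y) ∈ O → x ∈ U i → y ∈ U j → ∃ k ∈ F i j, x ∈ U k ∧ y ∈ U k)
    (h2 : ∀ i, closure (U i) ⊆ ⋃ k ∈ F i i, U k) (M : Set ι) (hM : Cl F M) :
    IsClopen (⋃ i ∈ M, U i) := by
  refine ⟨?_, isOpen_biUnion fun i _ => hUo i⟩
  apply isClosed_of_closure_subset
  intro z hz
  by_contra hzM
  have hzO : (z, z) ∈ O := hd rfl
  obtain ⟨W1, W2, hW1, hW2, hz1, hz2, hW⟩ := isOpen_prod_iff.mp hO z z hzO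
  obtain ⟨x, ⟨hxW1, hxW2⟩, hxM⟩ := mem_closure_iff.mp hz (W1 ∩ W2) (hW1.inter hW2) ⟨hz1, hz2⟩
  have hA : {k | k ∈ M ∧ x ∈ U k}.Finite := (hfin x).subset fun k hk => hk.2
  have hW' : IsOpen ((W1 ∩ W2) ∩ ⋂ k ∈ {k | k ∈ M ∧ x ∈ U k}, (closure (U k))ᶜ) :=
    (hW1.inter hW2).inter (hA.isOpen_biInter fun k _ => isClosed_closure.isOpen_compl)
  have hzW' : z ∈ (W1 ∩ W2) ∩ ⋂ k ∈ {k | k ∈ M ∧ x ∈ U k}, (closure (U k))ᶜ := by
    refine ⟨⟨hz1, hz2⟩, mem_iInter₂.mpr ?_⟩
    rintro k ⟨hk, -⟩ hzk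
    apply hzM
    obtain ⟨l, hl, hzl⟩ := mem_iUnion₂.mp (h2 k hzk)
    exact mem_iUnion₂.mpr ⟨l, hM k hk k hk hl, hzl⟩
  obtain ⟨y, ⟨⟨hyW1, hyW2⟩, hy⟩, hyM⟩ := mem_closure_iff.mp hz _ hW' hzW'
  obtain ⟨i, hi, hxi⟩ := mem_iUnion₂.mp hxM
  obtain ⟨j, hj, hyj⟩ := mem_iUnion₂.mp hyM
  obtain ⟨k, hk, hxk, hyk⟩ := h1 i j x y (hW ⟨hxW1, hyW2⟩) hxi hyj
  exact mem_iInter₂.mp hy k ⟨hM i hi j hj hk, hxk⟩ (subset_closure hyk)

/-- Every open cover has a point-finite open refinement. -/
def Metacompact (X : Type u) [TopologicalSpace X] : Prop :=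
  ∀ U : Set (Set X), (∀ u ∈ U, IsOpen u) → ⋃₀ U = Set.univ →
    ∃ V : Set (Set X), (∀ v ∈ V, IsOpen v) ∧ ⋃₀ V = Set.univ ∧
      (∀ v ∈ V, ∃ u ∈ U, v ⊆ u) ∧ ∀ x : X, {v | v ∈ V ∧ x ∈ v}.Finite

/-- Every open neighbourhood of the diagonal contains a closed neighbourhood of the diagonal. -/
def DiagonalNormal (X : Type u) [TopologicalSpace X] : Prop :=
  ∀ N : Set (X × X), IsOpen N → Set.diagonal X ⊆ N →
    ∃ O : Set (X × X), IsOpen O ∧ Set.diagonal X ⊆ O ∧ closure O ⊆ N

theorem exists_relcompact [LocallyCompactSpace X] [T2Space X] (x : X) :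
    ∃ w : Set X, IsOpen w ∧ IsCompact (closure w) ∧ x ∈ w := by
  obtain ⟨K, hK, hxK⟩ := exists_compact_mem_nhds x
  refine ⟨interior K, isOpen_interior, ?_, mem_interior_iff_mem_nhds.mpr hxK⟩
  exact hK.of_isClosed_subset isClosed_closure
    (closure_minimal interior_subset hK.isClosed)

theorem dec_of_diagonalNormal [LocallyCompactSpace X] [T2Space X] (hm : Metacompact X)
    (hd : DiagonalNormal X) : Dec (Set.univ : Set X) := by
  classical
  obtain ⟨V, hVo, hVc, hVr, hVf⟩ := hm {w | IsOpen w ∧ IsCompact (closure w)} (fun w hw => hw.1)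
    (by
      apply eq_univ_of_forall
      intro x
      obtain ⟨w, hw1, hw2, hw3⟩ := exists_relcompact x
      exact ⟨w, ⟨hw1, hw2⟩, hw3⟩)
  have hcpt : ∀ v : V, IsCompact (closure (v : Set X)) := by
    intro v
    obtain ⟨w, ⟨-, hw⟩, hvw⟩ := hVr v v.2
    exact hw.of_isClosed_subset isClosed_closure (closure_mono hvw)
  have hcov : ⋃ v : V, (v : Set X) = Set.univ := by
    rw [← sUnion_eq_iUnion]
    exact hVc
  obtain ⟨O, hO, hdO, hON⟩ := hd (⋃ v : V, (v : Set X) ×ˢ (v : Set X))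
    (isOpen_iUnion fun v => (hVo v v.2).prod (hVo v v.2)) (by
      rintro ⟨x, y⟩ hxy
      have hxy' : x = y := hxy
      subst hxy'
      have h1 : x ∈ ⋃ v : V, (v : Set X) := by
        rw [hcov]
        trivial
      obtain ⟨v, hv⟩ := mem_iUnion.mp h1
      exact mem_iUnion.mpr ⟨v, hv, hv⟩)
  have h1 : ∀ i j : V, ∃ t : Finset V,
      (closure (i : Set X) ×ˢ closure (j : Set X)) ∩ closure O ⊆
        ⋃ k ∈ t, (k : Set X) ×ˢ (k : Set X) := by
    intro i j
    exact (((hcpt i).prod (hcpt j)).inter_right isClosed_closure).elim_finite_subcover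
      (fun k : V => (k : Set X) ×ˢ (k : Set X)) (fun k => (hVo k k.2).prod (hVo k k.2))
      (inter_subset_right.trans hON)
  have h2 : ∀ i : V, ∃ t : Finset V, closure (i : Set X) ⊆ ⋃ k ∈ t, (k : Set X) := by
    intro i
    exact (hcpt i).elim_finite_subcover (fun k : V => (k : Set X)) (fun k => hVo k k.2) (by
      rw [hcov]
      exact subset_univ _)
  choose f hf using h1
  choose g hg using h2
  refine dec_univ (fun i j => ((f i j ∪ g i : Finset V) : Set V))
    (fun i j => (Finset.finite_toSet _).countable) (fun v : V => (v : Set X)) hcpt hcov ?_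
  apply clopen_of_cl _ (fun v : V => (v : Set X)) (fun v => hVo v v.2) ?_ O hO hdO
  · intro i j x y hxy hx hy
    have h3 := hf i j ⟨⟨subset_closure hx, subset_closure hy⟩, subset_closure hxy⟩
    obtain ⟨k, hk, hk2⟩ := mem_iUnion₂.mp h3
    exact ⟨k, Finset.mem_coe.mpr (Finset.mem_union_left _ hk), hk2.1, hk2.2⟩
  · intro i x hx
    obtain ⟨k, hk, hk2⟩ := mem_iUnion₂.mp (hg i hx)
    exact mem_iUnion₂.mpr ⟨k, Finset.mem_coe.mpr (Finset.mem_union_right _ hk), hk2⟩
  · intro x
    have h3 : {i : V | x ∈ (i : Set X)} = (fun i : V => (i : Set X)) ⁻¹' {v | v ∈ V ∧ x ∈ v} := by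
      ext i
      simp
    rw [h3]
    exact (hVf x).preimage Subtype.val_injective.injOn

theorem dec_of_paracompact [LocallyCompactSpace X] [T2Space X] [ParacompactSpace X] :
    Dec (Set.univ : Set X) := by
  classical
  choose w hw1 hw2 hw3 using fun x : X => exists_relcompact x
  obtain ⟨U, hU1, hU2, hU3, hU4⟩ := precise_refinement w hw1 (by
    apply eq_univ_of_forall
    intro x
    exact mem_iUnion.mpr ⟨x, hw3 x⟩)
  have hcpt : ∀ i, IsCompact (closure (U i)) := fun i =>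
    (hw2 i).of_isClosed_subset isClosed_closure (closure_mono (hU4 i))
  refine dec_univ (fun i _ => {k | (U k ∩ closure (U i)).Nonempty})
    (fun i _ => (hU3.finite_nonempty_inter_compact (hcpt i)).countable) U hcpt hU2 ?_
  intro M hM
  refine ⟨?_, isOpen_biUnion fun i _ => hU1 i⟩
  apply isClosed_of_closure_subset
  intro z hz
  have hlf : LocallyFinite (fun i : M => U (i : X)) := hU3.comp_injective Subtype.val_injective
  rw [biUnion_eq_iUnion, hlf.closure_iUnion] at hz
  obtain ⟨i, hi⟩ := mem_iUnion.mp hz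
  have h1 : z ∈ ⋃ k, U k := by
    rw [hU2]
    trivial
  obtain ⟨k, hk⟩ := mem_iUnion.mp h1
  exact mem_iUnion₂.mpr ⟨k, hM i i.2 i i.2 ⟨z, hk, hi⟩, hk⟩

theorem dec_prod (h : Dec (Set.univ : Set X)) : Dec (Set.univ : Set (X × X)) := by
  obtain ⟨C, hC, hdis, hcov⟩ := h
  refine ⟨{e | ∃ c ∈ C, ∃ c' ∈ C, e = c ×ˢ c'}, ?_, ?_, ?_⟩
  · rintro _ ⟨c, hc, c', hc', rfl⟩
    obtain ⟨h1, K, hK, hK'⟩ := hC c hc
    obtain ⟨h2, L, hL, hL'⟩ := hC c' hc'
    refine ⟨h1.prod h2, ?_⟩
    have h3 : c ×ˢ c' = ⋃ p : ℕ × ℕ, K p.1 ×ˢ L p.2 := by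
      rw [← hK', ← hL']
      ext ⟨x, y⟩
      simp only [mem_prod, mem_iUnion, Prod.exists]
      constructor
      · rintro ⟨⟨n, hn⟩, m, hm⟩
        exact ⟨n, m, hn, hm⟩
      · rintro ⟨n, m, hn, hm⟩
        exact ⟨⟨n, hn⟩, m, hm⟩
    rw [h3]
    exact isSigmaCompact_iUnion_of_isCompact _ fun p => (hK p.1).prod (hL p.2)
  · rintro _ ⟨c, hc, c', hc', rfl⟩ _ ⟨d, hd, d', hd', rfl⟩ hne
    change Disjoint (c ×ˢ c') (d ×ˢ d')
    rw [Set.disjoint_prod]
    by_contra h1
    push Not at h1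
    apply hne
    have h2 : c = d := by
      by_contra h3
      exact h1.1 (hdis hc hd h3)
    have h3 : c' = d' := by
      by_contra h3
      exact h1.2 (hdis hc' hd' h3)
    rw [h2, h3]
  · apply eq_univ_of_forall
    rintro ⟨x, y⟩
    obtain ⟨c, hc, hxc⟩ : x ∈ ⋃₀ C := by
      rw [hcov]
      trivial
    obtain ⟨c', hc', hyc⟩ : y ∈ ⋃₀ C := by
      rw [hcov]
      trivial
    exact ⟨c ×ˢ c', ⟨c, hc, c', hc', rfl⟩, hxc, hyc⟩

theorem diagonalNormal_of_normal [T2Space X] [NormalSpace (X × X)] : DiagonalNormal X := by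
  intro N hN hd
  obtain ⟨O, hO, h1, h2⟩ := normal_exists_closure_subset isClosed_diagonal hN hd
  exact ⟨O, hO, h1, h2⟩

end Cover

/-- For locally compact metacompact Hausdorff spaces, paracompactness, normality of the square,
separation of the diagonal and being a topological sum of `σ`-compact spaces are equivalent. -/
theorem main (X : Type u) [TopologicalSpace X] [T2Space X] [LocallyCompactSpace X]
    (hm : Metacompact X) :
    (ParacompactSpace X ↔ NormalSpace (X × X)) ∧ (ParacompactSpace X ↔ DiagonalNormal X) ∧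
      (DiagonalNormal X → Dec (Set.univ : Set X)) := by
  have h1 : ParacompactSpace X → NormalSpace (X × X) := by
    intro h
    have := paracompact_of_dec (dec_prod (dec_of_paracompact (X := X)))
    infer_instance
  have h2 : NormalSpace (X × X) → DiagonalNormal X := fun h => diagonalNormal_of_normal
  have h3 : DiagonalNormal X → ParacompactSpace X := fun h =>
    paracompact_of_dec (dec_of_diagonalNormal hm h)
  exact ⟨⟨h1, fun h => h3 (h2 h)⟩, ⟨fun h => h2 (h1 h), h3⟩, dec_of_diagonalNormal hm⟩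

end Pool.Agent.SqNormal
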